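import Pool.Agent.Helper7.PC.Statements
import Pool.Agent.Helper65.BL1

/-!
Mertens type bounds used by the modules N1, N2, N2t.
-/

open Finset

namespace Pool.Agent.Helper28.PC

/-- Upper bound in Mertens' first theorem. -/
theorem mertens_upper (n : ℕ) (hn : 1 ≤ n) :
    ∑ p ∈ n.primesLE, Real.log p / p ≤ Real.log n + Real.log 4 := by
  have h1 : ∑ p ∈ n.primesLE, ((n / p : ℕ) : ℝ) * Real.log p ≤ Real.log (n.factorial : ℕ) := by
    rw [Real.log_nat_eq_sum_factorization, Finsupp.sum]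
    have hsub : n.primesLE ⊆ (n.factorial).factorization.support := by
      intro p hp
      rw [Nat.mem_primesLE] at hp
      rw [Nat.support_factorization, Nat.mem_primeFactors]
      exact ⟨hp.2, hp.2.dvd_factorial.2 hp.1, Nat.factorial_ne_zero n⟩
    refine le_trans ?_ (Finset.sum_le_sum_of_subset_of_nonneg hsub
      (fun p _ _ => mul_nonneg (Nat.cast_nonneg _) (Real.log_natCast_nonneg p)))
    refine Finset.sum_le_sum fun p hp => ?_
    rw [Nat.mem_primesLE] at hp
    refine mul_le_mul_of_nonneg_right ?_ (Real.log_natCast_nonneg p)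
    have hfac := Nat.factorization_factorial hp.2 (n := n) (b := Nat.log p n + 1) (by omega)
    rw [hfac]
    have hlog : 1 ≤ Nat.log p n := Nat.log_pos hp.2.one_lt hp.1
    have : n / p ^ 1 ≤ ∑ i ∈ Ico 1 (Nat.log p n + 1), n / p ^ i :=
      Finset.single_le_sum (f := fun i => n / p ^ i) (fun i _ => Nat.zero_le _)
        (Finset.mem_Ico.2 ⟨le_rfl, by omega⟩)
    rw [pow_one] at this
    exact_mod_cast this
  have h2 : Real.log (n.factorial : ℕ) ≤ n * Real.log n := by
    have : ((n.factorial : ℕ) : ℝ) ≤ (n : ℝ) ^ n := by exact_mod_cast Nat.factorial_le_pow n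
    rw [← Real.log_pow]
    exact Real.log_le_log (by exact_mod_cast Nat.factorial_pos n) this
  have h3 : ∑ p ∈ n.primesLE, Real.log p ≤ Real.log 4 * n := by
    rw [← Chebyshev.theta_eq_sum_primesLE_log]
    exact Chebyshev.theta_le_log4_mul_x (by positivity)
  have h4 : (n : ℝ) * ∑ p ∈ n.primesLE, Real.log p / p ≤
      ∑ p ∈ n.primesLE, ((n / p : ℕ) : ℝ) * Real.log p + ∑ p ∈ n.primesLE, Real.log p := by
    rw [Finset.mul_sum, ← Finset.sum_add_distrib]
    refine Finset.sum_le_sum fun p hp => ?_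
    rw [Nat.mem_primesLE] at hp
    have hp0 : (0 : ℝ) < p := by exact_mod_cast hp.2.pos
    have hlog := Real.log_natCast_nonneg p
    have hdiv : (n : ℝ) / p ≤ ((n / p : ℕ) : ℝ) + 1 := by
      rw [div_le_iff₀ hp0]
      have h5 := Nat.div_add_mod n p
      have h6 := Nat.mod_lt n hp.2.pos
      have h7 : n ≤ (n / p + 1) * p := by nlinarith
      exact_mod_cast h7
    calc (n : ℝ) * (Real.log p / p) = (n : ℝ) / p * Real.log p := by ring
      _ ≤ (((n / p : ℕ) : ℝ) + 1) * Real.log p := mul_le_mul_of_nonneg_right hdiv hlog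
      _ = _ := by ring
  have hn0 : (0 : ℝ) < n := by exact_mod_cast hn
  have h5 : (n : ℝ) * ∑ p ∈ n.primesLE, Real.log p / p ≤ n * (Real.log n + Real.log 4) := by
    nlinarith
  exact le_of_mul_le_mul_left h5 hn0

/-- Abel summation -/
theorem abel_aux (n : ℕ) : ∑ p ∈ (n + 2).primesLE, (1 : ℝ) / p ≤
    (∑ p ∈ (n + 2).primesLE, Real.log p / p) / Real.log ((n + 2 : ℕ) : ℝ) +
      (Real.log (Real.log ((n + 2 : ℕ) : ℝ)) - Real.log (Real.log 2)) +
      Real.log 4 * (1 / Real.log 2 - 1 / Real.log ((n + 2 : ℕ) : ℝ)) := by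
  induction n with
  | zero =>
    have h2 : (0 + 2 : ℕ).primesLE = {2} := by decide
    rw [h2]
    have hl : Real.log 2 ≠ 0 := (Real.log_pos (by norm_num)).ne'
    simp
    field_simp
    norm_num
  | succ n ih =>
    have e : n + 1 + 2 = (n + 2) + 1 := by ring
    rw [e]
    have hx : (1 : ℝ) < ((n + 2 : ℕ) : ℝ) := by exact_mod_cast (by omega : 1 < n + 2)
    have hy : (1 : ℝ) < (((n + 2) + 1 : ℕ) : ℝ) := by exact_mod_cast (by omega : 1 < n + 2 + 1)
    have hxy : ((n + 2 : ℕ) : ℝ) ≤ (((n + 2) + 1 : ℕ) : ℝ) := by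
      exact_mod_cast (by omega : n + 2 ≤ n + 2 + 1)
    have hu : 0 < Real.log ((n + 2 : ℕ) : ℝ) := Real.log_pos hx
    have hv : 0 < Real.log (((n + 2) + 1 : ℕ) : ℝ) := Real.log_pos hy
    have huv : Real.log ((n + 2 : ℕ) : ℝ) ≤ Real.log (((n + 2) + 1 : ℕ) : ℝ) :=
      Real.log_le_log (by linarith) hxy
    have hA := mertens_upper (n + 2) (by omega)
    -- splitting of the last term
    have hS : ∃ i : ℝ, (∑ p ∈ (n + 2 + 1).primesLE, (1 : ℝ) / p =
        ∑ p ∈ (n + 2).primesLE, (1 : ℝ) / p + i) ∧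
        (∑ p ∈ (n + 2 + 1).primesLE, Real.log p / p =
          ∑ p ∈ (n + 2).primesLE, Real.log p / p + i * Real.log (((n + 2) + 1 : ℕ) : ℝ)) := by
      by_cases hp : (n + 2 + 1).Prime
      · have hins : (n + 2 + 1).primesLE = insert (n + 2 + 1) ((n + 2).primesLE) := by
          ext q
          rw [Finset.mem_insert, Nat.mem_primesLE, Nat.mem_primesLE]
          constructor
          · rintro ⟨h1, h2⟩
            by_cases h3 : q = n + 2 + 1
            · exact Or.inl h3
            · exact Or.inr ⟨by omega, h2⟩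
          · rintro (rfl | ⟨h1, h2⟩)
            · exact ⟨le_rfl, hp⟩
            · exact ⟨by omega, h2⟩
        have hnot : (n + 2 + 1) ∉ (n + 2).primesLE := by
          rw [Nat.mem_primesLE]; omega
        refine ⟨1 / ((n + 2 + 1 : ℕ) : ℝ), ?_, ?_⟩
        · rw [hins, Finset.sum_insert hnot]; ring
        · rw [hins, Finset.sum_insert hnot]; ring
      · have heq : (n + 2 + 1).primesLE = (n + 2).primesLE := by
          ext q
          rw [Nat.mem_primesLE, Nat.mem_primesLE]
          constructor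
          · rintro ⟨h1, h2⟩
            refine ⟨?_, h2⟩
            by_contra h3
            have : q = n + 2 + 1 := by omega
            exact hp (this ▸ h2)
          · rintro ⟨h1, h2⟩
            exact ⟨by omega, h2⟩
        exact ⟨0, by rw [heq]; ring, by rw [heq]; ring⟩
    obtain ⟨i, hi1, hi2⟩ := hS
    rw [hi1, hi2]
    generalize ∑ p ∈ (n + 2).primesLE, (1 : ℝ) / p = S at *
    generalize ∑ p ∈ (n + 2).primesLE, Real.log p / p = A at *
    generalize hug : Real.log ((n + 2 : ℕ) : ℝ) = u at *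
    generalize hvg : Real.log (((n + 2) + 1 : ℕ) : ℝ) = v at *
    have h1 : (A + i * v) / v = A / v + i := by field_simp
    rw [h1]
    -- `A (1/u - 1/v) ≤ (u + c)(1/u - 1/v)`
    have h2 : 0 ≤ 1 / u - 1 / v := by
      rw [sub_nonneg]; exact one_div_le_one_div_of_le hu huv
    have h3 : A * (1 / u - 1 / v) ≤ (u + Real.log 4) * (1 / u - 1 / v) :=
      mul_le_mul_of_nonneg_right hA h2
    have h4 : u * (1 / u - 1 / v) ≤ Real.log v - Real.log u := by
      have h5 : Real.log (u / v) ≤ u / v - 1 := Real.log_le_sub_one_of_pos (by positivity)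
      rw [Real.log_div hu.ne' hv.ne'] at h5
      have h6 : u * (1 / u - 1 / v) = 1 - u / v := by field_simp
      rw [h6]; linarith
    have h7 : A / u - A / v = A * (1 / u - 1 / v) := by ring
    nlinarith [h3, h4, h7, ih]

/-- second theorem of Mertens, upper bound -/
theorem sum_inv_le {n : ℕ} (hn : 2 ≤ n) :
    ∑ p ∈ n.primesLE, (1 : ℝ) / p ≤ Real.log (Real.log n) + 5 := by
  obtain ⟨m, rfl⟩ : ∃ m, n = m + 2 := ⟨n - 2, by omega⟩
  have h := abel_aux m
  have hx : (1 : ℝ) < ((m + 2 : ℕ) : ℝ) := by exact_mod_cast (by omega : 1 < m + 2)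
  have hu : 0 < Real.log ((m + 2 : ℕ) : ℝ) := Real.log_pos hx
  have hA := mertens_upper (m + 2) (by omega)
  have h1 : (∑ p ∈ (m + 2).primesLE, Real.log p / p) / Real.log ((m + 2 : ℕ) : ℝ) ≤
      1 + Real.log 4 * (1 / Real.log ((m + 2 : ℕ) : ℝ)) := by
    rw [div_le_iff₀ hu]
    have : (1 + Real.log 4 * (1 / Real.log ((m + 2 : ℕ) : ℝ))) * Real.log ((m + 2 : ℕ) : ℝ) =
      Real.log ((m + 2 : ℕ) : ℝ) + Real.log 4 := by field_simp
    rw [this]; exact hA
  have h4 : Real.log 4 = 2 * Real.log 2 := by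
    rw [show (4 : ℝ) = 2 ^ 2 by norm_num, Real.log_pow]; norm_num
  have hl2 : 0 < Real.log 2 := Real.log_pos (by norm_num)
  have h5 : Real.log 4 * (1 / Real.log 2) = 2 := by rw [h4]; field_simp
  have h9 : -(1 : ℝ) ≤ Real.log (Real.log 2) := by
    rw [Real.le_log_iff_exp_le (by positivity)]
    have hlog2 := Real.log_two_gt_d9
    have : Real.exp (-1) ≤ 1 / 2 := by
      rw [Real.exp_neg, inv_le_comm₀ (Real.exp_pos 1) (by norm_num)]
      have := Real.add_one_le_exp (1 : ℝ)
      norm_num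
      linarith
    linarith
  nlinarith [h, h1, h5, h9]

end Pool.Agent.Helper28.PC
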