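import Pool.Agent.Helper7.PC.Statements

/-! Module N3: the divisor bound. -/

open Finset Pool.Agent.Helper7.PC

namespace Pool.Agent.Helper28.PC

theorem n3_two {ε : ℝ} (hε : 0 < ε) (a : ℕ) {M : ℝ} (hM1 : 1 ≤ M) (hM : 1 ≤ M * (ε * Real.log 2)) :
    (a : ℝ) + 1 ≤ M * (2 : ℝ) ^ (ε * a) := by
  have h1 : 1 + ε * Real.log 2 * a ≤ (2 : ℝ) ^ (ε * a) := by
    rw [Real.rpow_def_of_pos (by norm_num)]
    have := Real.add_one_le_exp (Real.log 2 * (ε * a))
    linarith
  have ha : (0 : ℝ) ≤ a := Nat.cast_nonneg a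
  have h2 : M * (1 + ε * Real.log 2 * a) ≤ M * (2 : ℝ) ^ (ε * a) :=
    mul_le_mul_of_nonneg_left h1 (by linarith)
  have h3 : 1 * (a : ℝ) ≤ (M * (ε * Real.log 2)) * a := mul_le_mul_of_nonneg_right hM ha
  nlinarith

theorem n3_pow (a : ℕ) : (a : ℝ) + 1 ≤ (2 : ℝ) ^ a := by
  have h : a + 1 ≤ 2 ^ a := Nat.lt_two_pow_self
  exact_mod_cast h

theorem N3 : StN3 := by
  intro ε hε
  have hl2 : 0 < Real.log 2 := Real.log_pos (by norm_num)
  obtain ⟨M, hM1, hM⟩ : ∃ M : ℝ, 1 ≤ M ∧ 1 ≤ M * (ε * Real.log 2) := by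
    refine ⟨1 + 1 / (ε * Real.log 2), ?_, ?_⟩
    · have : 0 ≤ 1 / (ε * Real.log 2) := by positivity
      linarith
    · have h0 : 0 < ε * Real.log 2 := by positivity
      rw [add_mul, one_div, inv_mul_cancel₀ h0.ne']
      linarith
  obtain ⟨K, hK⟩ := exists_nat_gt ((2 : ℝ) ^ (1 / ε))
  refine ⟨M ^ K, one_le_pow₀ hM1, ?_⟩
  intro n hn
  have hn0 : n ≠ 0 := by omega
  -- local factors
  have hloc : ∀ p ∈ n.primeFactors, ((n.factorization p : ℕ) : ℝ) + 1 ≤
      (if p < K then M else 1) * ((p : ℝ) ^ (n.factorization p)) ^ ε := by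
    intro p hp
    have hp2 : (2 : ℝ) ≤ p := by exact_mod_cast (Nat.prime_of_mem_primeFactors hp).two_le
    generalize n.factorization p = a
    have e1 : ((p : ℝ) ^ a) ^ ε = ((p : ℝ) ^ ε) ^ a := by
      rw [← Real.rpow_natCast, ← Real.rpow_natCast, ← Real.rpow_mul (by linarith),
        ← Real.rpow_mul (by linarith), mul_comm]
    split_ifs with h
    · refine (n3_two hε a hM1 hM).trans ?_
      apply mul_le_mul_of_nonneg_left _ (by linarith)
      rw [e1, Real.rpow_mul (by norm_num), Real.rpow_natCast]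
      apply pow_le_pow_left₀ (by positivity)
      exact Real.rpow_le_rpow (by norm_num) hp2 hε.le
    · rw [one_mul, e1]
      refine (n3_pow a).trans ?_
      apply pow_le_pow_left₀ (by norm_num)
      have h1 : (2 : ℝ) ^ (1 / ε) ≤ p := hK.le.trans (by exact_mod_cast not_lt.1 h)
      have h2 := Real.rpow_le_rpow (by positivity) h1 hε.le
      rwa [← Real.rpow_mul (by norm_num), one_div, inv_mul_cancel₀ hε.ne', Real.rpow_one] at h2
  have h1 : ((n.divisors.card : ℕ) : ℝ) = ∏ p ∈ n.primeFactors, (((n.factorization p : ℕ) : ℝ) + 1) := by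
    rw [Nat.card_divisors hn0]
    push_cast
    rfl
  have h2 : (n : ℝ) ^ ε = ∏ p ∈ n.primeFactors, ((p : ℝ) ^ (n.factorization p)) ^ ε := by
    rw [Real.finsetProd_rpow _ _ (fun p _ => by positivity)]
    congr 1
    have h3 := Nat.prod_factorization_pow_eq_self hn0
    conv_lhs => rw [← h3]
    rw [Finsupp.prod, Nat.support_factorization]
    push_cast
    rfl
  rw [h1, h2]
  refine (Finset.prod_le_prod (fun p _ => by positivity) hloc).trans ?_
  rw [Finset.prod_mul_distrib]
  apply mul_le_mul_of_nonneg_right _ (Finset.prod_nonneg (fun p _ => by positivity))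
  rw [Finset.prod_ite, Finset.prod_const, Finset.prod_const_one, mul_one]
  apply pow_le_pow_right₀ hM1
  have hsub : n.primeFactors.filter (fun p => p < K) ⊆ Finset.range K := by
    intro p hp
    rw [Finset.mem_filter] at hp
    exact Finset.mem_range.2 hp.2
  simpa using Finset.card_le_card hsub

end Pool.Agent.Helper28.PC
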